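import Pool.Agent.N343.AM.Stm

/-!
AM/SYS: existence of the levels.
-/

set_option autoImplicit false

namespace Pool.Agent.N596.AM

open Pool.Agent.N343.AM

open Classical in
/-- concatenation of all the words -/
noncomputable def PP (W : Set Wd) : Wd := if h : W.Finite then h.toFinset.toList.flatten else []

lemma PP_star {W : Set Wd} (h : W.Finite) : PP W ∈ star W := by
  unfold PP
  rw [dif_pos h]
  exact ⟨h.toFinset.toList, fun w hw => by simpa using hw, rfl⟩

lemma infix_flatten {w : Wd} {L : List Wd} (h : w ∈ L) : w <:+: L.flatten := by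
  obtain ⟨s, t, rfl⟩ := List.append_of_mem h
  refine ⟨s.flatten, t.flatten, ?_⟩
  simp

lemma PP_infix {W : Set Wd} (h : W.Finite) {w : Wd} (hw : w ∈ W) : w <:+: PP W := by
  unfold PP
  rw [dif_pos h]
  exact infix_flatten (by simpa using hw)

/-- the levels -/
noncomputable def st : ℕ → Set Wd × ℕ
  | 0 => ({w | w.length = 1 ∨ w.length = 2}, 1)
  | k + 1 => (nxt (st k).1 (PP (st k).1) (2 ^ (k + 4) * DD (PP (st k).1) (st k).2),
      2 ^ (k + 4) * DD (PP (st k).1) (st k).2)

lemma st_ok (hF : S_FRO) (k : ℕ) : (st k).1.Finite ∧ Lv (st k).1 (st k).2 := by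
  induction k with
  | zero =>
    refine ⟨(List.finite_length_le Bool 2).subset ?_, ?_⟩
    · rintro w (h | h)
      · show w.length ≤ 2
        omega
      · show w.length ≤ 2
        omega
    · exact ⟨le_rfl, fun w hw => hw, ⟨[true], Or.inl rfl, rfl⟩, ⟨[true, true], Or.inr rfl, rfl⟩⟩
  | succ k ih =>
    obtain ⟨hfin, hlv⟩ := ih
    set W := (st k).1 with hW
    set m := (st k).2 with hm
    set P := PP W with hP
    have hDD : 2 + P.length + m ^ 2 ≤ DD P m := by
      unfold DD
      omega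
    have hM : DD P m ≤ 2 ^ (k + 4) * DD P m := Nat.le_mul_of_pos_left _ (by positivity)
    have e : st (k + 1) = (nxt W P (2 ^ (k + 4) * DD P m), 2 ^ (k + 4) * DD P m) := rfl
    rw [e]
    set M := 2 ^ (k + 4) * DD P m with hMd
    refine ⟨(List.finite_length_le Bool (M + 1)).subset ?_, ?_⟩
    · rintro w ⟨h | h, _⟩
      · show w.length ≤ M + 1
        omega
      · show w.length ≤ M + 1
        omega
    · have hex : ∀ n, M ≤ n → ∃ u : Wd, (∃ v ∈ star W, u = P ++ v) ∧ u.length = n := by
        intro n hn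
        obtain ⟨v, hv, hvl⟩ := hF W m hlv (n - P.length) (by omega)
        refine ⟨P ++ v, ⟨v, hv, rfl⟩, ?_⟩
        rw [List.length_append, hvl]
        omega
      refine ⟨by show 1 ≤ M; omega, fun w hw => hw.1, ?_, ?_⟩
      · obtain ⟨u, hu, hul⟩ := hex M le_rfl
        exact ⟨u, ⟨Or.inl hul, hu⟩, hul⟩
      · obtain ⟨u, hu, hul⟩ := hex (M + 1) (by omega)
        exact ⟨u, ⟨Or.inr hul, hu⟩, hul⟩

theorem main (hF : S_FRO) : S_SYS := by
  refine ⟨fun k => (st k).1, fun k => PP (st k).1, fun k => (st k).2, ?_⟩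
  refine ⟨rfl, rfl, fun k => (st_ok hF k).2, fun k => PP_star (st_ok hF k).1,
    fun k w hw => PP_infix (st_ok hF k).1 hw, fun k => rfl, fun k => le_rfl⟩

end Pool.Agent.N596.AM
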